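import Mathlib

set_option autoImplicit false
set_option linter.unusedSectionVars false
set_option linter.unusedSimpArgs false
open scoped BigOperators
open OnePoint

namespace Q170.AS

noncomputable section

variable {K : Type} [Field K] [Fintype K] [DecidableEq K]

instance instFintypeOP : Fintype (OnePoint K) := inferInstanceAs (Fintype (Option K))
instance instDecOP : DecidableEq (OnePoint K) := inferInstanceAs (DecidableEq (Option K))

lemma sum_op {β : Type} [AddCommMonoid β] (φ : OnePoint K → β) :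
    ∑ x, φ x = φ ∞ + ∑ z : K, φ (z : OnePoint K) :=
  Fintype.sum_option (f := φ)

lemma sum_K {β : Type} [AddCommMonoid β] (φ : K → β) :
    ∑ z, φ z = φ 0 + ∑ z : Kˣ, φ (z : K) := by
  rw [Fintype.sum_eq_add_sum_subtype_ne φ 0]
  congr 1
  exact (Fintype.sum_equiv (unitsEquivNeZero (G₀ := K)) (fun z : Kˣ => φ (z : K))
    (fun z : {i : K // i ≠ 0} => φ z) (fun z => rfl)).symm

lemma sum_X {β : Type} [AddCommMonoid β] (φ : OnePoint K → β) :
    ∑ x, φ x = φ ∞ + (φ ((0 : K) : OnePoint K) + ∑ z : Kˣ, φ ((z : K) : OnePoint K)) := by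
  rw [sum_op, sum_K]

/-- diagonal element -/
def tau (t : Kˣ) : GL (Fin 2) K :=
  Matrix.GeneralLinearGroup.mkOfDetNeZero !![(t : K), 0; 0, 1] (by simp)

@[simp] lemma tau_inf (t : Kˣ) : tau t • (∞ : OnePoint K) = ∞ := by
  rw [OnePoint.smul_infty_eq_ite]
  simp [tau, Matrix.GeneralLinearGroup.mkOfDetNeZero]

@[simp] lemma tau_some (t : Kˣ) (z : K) : tau t • (z : OnePoint K) = ((t * z : K) : OnePoint K) := by
  rw [OnePoint.smul_some_eq_ite]
  simp [tau, Matrix.GeneralLinearGroup.mkOfDetNeZero]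

/-- unipotent element -/
def uu (s : K) : GL (Fin 2) K :=
  Matrix.GeneralLinearGroup.mkOfDetNeZero !![1, s; 0, 1] (by simp)

@[simp] lemma uu_inf (t : K) : uu t • (∞ : OnePoint K) = ∞ := by
  rw [OnePoint.smul_infty_eq_ite]
  simp [uu, Matrix.GeneralLinearGroup.mkOfDetNeZero]

@[simp] lemma uu_some (t : K) (z : K) : uu t • (z : OnePoint K) = ((z + t : K) : OnePoint K) := by
  rw [OnePoint.smul_some_eq_ite]
  simp [uu, Matrix.GeneralLinearGroup.mkOfDetNeZero]

/-- Element carrying `∞, 0` to `a, b`. -/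
def gab (a b : K) : GL (Fin 2) K :=
  if h : a - b ≠ 0 then Matrix.GeneralLinearGroup.mkOfDetNeZero !![a, b; 1, 1] (by simpa using h)
  else 1

lemma gab_inf {a b : K} (h : a ≠ b) : gab a b • (∞ : OnePoint K) = (a : OnePoint K) := by
  have h' : a - b ≠ 0 := sub_ne_zero.2 h
  rw [OnePoint.smul_infty_eq_ite]
  simp [gab, h', Matrix.GeneralLinearGroup.mkOfDetNeZero]

lemma gab_zero {a b : K} (h : a ≠ b) :
    gab a b • ((0 : K) : OnePoint K) = (b : OnePoint K) := by
  have h' : a - b ≠ 0 := sub_ne_zero.2 h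
  rw [OnePoint.smul_some_eq_ite]
  simp [gab, h', Matrix.GeneralLinearGroup.mkOfDetNeZero]

/-- homogeneous coordinates -/
def r1 (x : OnePoint K) : K := x.elim 1 (fun z => z)
def r2 (x : OnePoint K) : K := x.elim 0 (fun _ => 1)

lemma gab_coord {a b : K} (h : a ≠ b) (u : K) {x : OnePoint K}
    (hx : gab a b • (u : OnePoint K) = x) : r1 x * (u + 1) = r2 x * (a * u + b) := by
  have h' : a - b ≠ 0 := sub_ne_zero.2 h
  rw [OnePoint.smul_some_eq_ite] at hx
  simp only [gab, h', ne_eq, not_false_eq_true, dite_true,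
    Matrix.GeneralLinearGroup.mkOfDetNeZero] at hx
  subst hx
  by_cases hu : u + 1 = 0
  · simp [r1, r2, hu]
  · simp [r1, r2, hu]

/-- transitivity on ordered pairs of distinct points -/
lemma exists_pair (x y : OnePoint K) (h : x ≠ y) :
    ∃ g : GL (Fin 2) K, g • (∞ : OnePoint K) = x ∧ g • ((0 : K) : OnePoint K) = y := by
  induction x using OnePoint.rec with
  | infty =>
    induction y using OnePoint.rec with
    | infty => exact absurd rfl h
    | coe b => exact ⟨uu b, by simp, by simp⟩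
  | coe a =>
    induction y using OnePoint.rec with
    | infty =>
      refine ⟨Matrix.GeneralLinearGroup.mkOfDetNeZero !![a, 1; 1, 0] (by simp), ?_, ?_⟩
      · rw [OnePoint.smul_infty_eq_ite]
        simp [Matrix.GeneralLinearGroup.mkOfDetNeZero]
      · rw [OnePoint.smul_some_eq_ite]
        simp [Matrix.GeneralLinearGroup.mkOfDetNeZero]
    | coe b =>
      have hab : a ≠ b := fun e => h (by rw [e])
      exact ⟨gab a b, gab_inf hab, gab_zero hab⟩

/-- the relevant space -/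
def E (v : OnePoint K → OnePoint K → ℂ) : Submodule ℂ (OnePoint K → OnePoint K → ℂ) where
  carrier := {f | (∀ x y, f x y = - f y x) ∧ (∀ x, ∑ y, f x y = 0) ∧
    ∀ g : GL (Fin 2) K, ∑ x, ∑ y, v x y * f (g • x) (g • y) = 0}
  zero_mem' := by simp
  add_mem' := by
    rintro f g ⟨hf1, hf2, hf3⟩ ⟨hg1, hg2, hg3⟩
    refine ⟨fun x y => ?_, fun x => ?_, fun h => ?_⟩
    · simp only [Pi.add_apply]; rw [hf1, hg1]; ring
    · simp only [Pi.add_apply, Finset.sum_add_distrib, hf2, hg2, add_zero]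
    · simp only [Pi.add_apply, mul_add, Finset.sum_add_distrib, hf3, hg3, add_zero]
  smul_mem' := by
    rintro c f ⟨hf1, hf2, hf3⟩
    refine ⟨fun x y => ?_, fun x => ?_, fun h => ?_⟩
    · simp only [Pi.smul_apply, smul_eq_mul]; rw [hf1]; ring
    · simp only [Pi.smul_apply, smul_eq_mul, ← Finset.mul_sum, hf2, mul_zero]
    · have := hf3 h
      simp only [Pi.smul_apply, smul_eq_mul]
      calc _ = c * ∑ x, ∑ y, v x y * f (h • x) (h • y) := by
            simp only [Finset.mul_sum]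
            exact Finset.sum_congr rfl fun x _ => Finset.sum_congr rfl fun y _ => by ring
        _ = 0 := by rw [this, mul_zero]

def act (g : GL (Fin 2) K) (f : OnePoint K → OnePoint K → ℂ) : OnePoint K → OnePoint K → ℂ :=
  fun x y => f (g • x) (g • y)

lemma E_act {v f : OnePoint K → OnePoint K → ℂ} (hf : f ∈ E v) (g : GL (Fin 2) K) :
    act g f ∈ E v := by
  obtain ⟨h1, h2, h3⟩ := hf
  refine ⟨fun x y => h1 _ _, fun x => ?_, fun h => ?_⟩
  · rw [← h2 (g • x)]
    exact Fintype.sum_equiv (MulAction.toPerm g) _ _ (fun y => rfl)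
  · have := h3 (g * h)
    simpa [act, mul_smul] using this

lemma tsum1 {f : OnePoint K → OnePoint K → ℂ} (h1 : ∀ x y, f x y = - f y x)
    (h2 : ∀ x, ∑ y, f x y = 0) :
    (∑ t : Kˣ, f ∞ ((t : K) : OnePoint K) = - f ∞ ((0 : K) : OnePoint K)) ∧
    (∑ t : Kˣ, f ((0 : K) : OnePoint K) ((t : K) : OnePoint K) = f ∞ ((0 : K) : OnePoint K)) := by
  have d : ∀ x, f x x = 0 := fun x => by
    have := h1 x x
    have h3 : (2 : ℂ) * f x x = 0 := by linear_combination this
    simpa using h3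
  constructor
  · have := h2 ∞
    rw [sum_X, d] at this
    linear_combination this
  · have := h2 ((0 : K) : OnePoint K)
    rw [sum_X, d, h1 _ ∞] at this
    linear_combination this

lemma star {v f : OnePoint K → OnePoint K → ℂ} (hv1 : ∀ x y, v x y = - v y x)
    (hv2 : ∀ x, ∑ y, v x y = 0) (hf : f ∈ E v) :
    ∑ z : Kˣ, ∑ w : Kˣ, v ((z : K) : OnePoint K) ((w : K) : OnePoint K) *
      ∑ t : Kˣ, f ((t * z : K) : OnePoint K) ((t * w : K) : OnePoint K) =
    -(2 * (Fintype.card Kˣ : ℂ) + 4) * v ∞ ((0 : K) : OnePoint K) * f ∞ ((0 : K) : OnePoint K) := by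
  obtain ⟨h1, h2, h3⟩ := hf
  have d : ∀ x, f x x = 0 := fun x => by
    have := h1 x x
    have h3 : (2 : ℂ) * f x x = 0 := by linear_combination this
    simpa using h3
  obtain ⟨fa, fb⟩ := tsum1 h1 h2
  obtain ⟨va, vb⟩ := tsum1 hv1 hv2
  have hs : ∑ t : Kˣ, ∑ x, ∑ y, v x y * f (tau t • x) (tau t • y) = 0 :=
    Finset.sum_eq_zero fun t _ => h3 (tau t)
  have re : ∀ (φ : OnePoint K → ℂ) (w : Kˣ), ∑ t : Kˣ, φ ((t * w : K) : OnePoint K) =
      ∑ t : Kˣ, φ ((t : K) : OnePoint K) := fun φ w =>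
    Fintype.sum_equiv (Equiv.mulRight w) _ _ (fun t => by simp)
  simp only [sum_X, tau_inf, tau_some, d, mul_zero, zero_add, Finset.sum_add_distrib] at hs
  have e1 : ∑ t : Kˣ, ∑ w : Kˣ, v ∞ ((w : K) : OnePoint K) * f ∞ ((t * w : K) : OnePoint K) =
      v ∞ ((0 : K) : OnePoint K) * f ∞ ((0 : K) : OnePoint K) := by
    rw [Finset.sum_comm]
    simp only [← Finset.mul_sum]
    simp only [re (fun b => f ∞ b), fa, ← Finset.sum_mul, va]
    ring
  have e2 : ∑ t : Kˣ, ∑ w : Kˣ, v ((0 : K) : OnePoint K) ((w : K) : OnePoint K) *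
      f ((0 : K) : OnePoint K) ((t * w : K) : OnePoint K) =
      v ∞ ((0 : K) : OnePoint K) * f ∞ ((0 : K) : OnePoint K) := by
    rw [Finset.sum_comm]
    simp only [← Finset.mul_sum]
    simp only [re (fun b => f ((0 : K) : OnePoint K) b), fb, ← Finset.sum_mul, vb]
  have e3 : ∑ t : Kˣ, ∑ w : Kˣ, v ((w : K) : OnePoint K) ∞ * f ((t * w : K) : OnePoint K) ∞ =
      v ∞ ((0 : K) : OnePoint K) * f ∞ ((0 : K) : OnePoint K) := by
    rw [← e1]
    refine Finset.sum_congr rfl fun t _ => Finset.sum_congr rfl fun w _ => ?_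
    rw [hv1 _ ∞, h1 _ ∞]; ring
  have e4 : ∑ t : Kˣ, ∑ w : Kˣ, v ((w : K) : OnePoint K) ((0 : K) : OnePoint K) *
      f ((t * w : K) : OnePoint K) ((0 : K) : OnePoint K) =
      v ∞ ((0 : K) : OnePoint K) * f ∞ ((0 : K) : OnePoint K) := by
    rw [← e2]
    refine Finset.sum_congr rfl fun t _ => Finset.sum_congr rfl fun w _ => ?_
    rw [hv1 _ ((0 : K) : OnePoint K), h1 _ ((0 : K) : OnePoint K)]; ring
  have e5 : ∑ t : Kˣ, ∑ z : Kˣ, ∑ w : Kˣ, v ((z : K) : OnePoint K) ((w : K) : OnePoint K) *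
      f ((t * z : K) : OnePoint K) ((t * w : K) : OnePoint K) =
      ∑ z : Kˣ, ∑ w : Kˣ, v ((z : K) : OnePoint K) ((w : K) : OnePoint K) *
      ∑ t : Kˣ, f ((t * z : K) : OnePoint K) ((t * w : K) : OnePoint K) := by
    rw [Finset.sum_comm]
    refine Finset.sum_congr rfl fun z _ => ?_
    rw [Finset.sum_comm]
    refine Finset.sum_congr rfl fun w _ => ?_
    rw [Finset.mul_sum]
  rw [← e5]
  simp only [e1, e2, e3, e4, Finset.sum_const, Finset.card_univ, nsmul_eq_mul, mul_zero, add_zero] at hs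
  rw [hv1 ((0 : K) : OnePoint K) ∞, h1 ((0 : K) : OnePoint K) ∞] at hs
  linear_combination hs

end

end Q170.AS
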