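import Pool.Agent.Q170.AS.Fin1

set_option autoImplicit false
set_option linter.unusedSectionVars false
set_option linter.unusedSimpArgs false
open scoped BigOperators ComplexConjugate
open OnePoint

namespace Q170.AS

noncomputable section

variable {K : Type} [Field K] [Fintype K] [DecidableEq K]

lemma uu_uu (s r : K) (x : OnePoint K) : uu s • uu r • x = uu (s + r) • x := by
  induction x using OnePoint.rec with
  | infty => simp
  | coe a => simp [add_assoc, add_comm r s]

lemma tau_uu (d : Kˣ) (r : K) (x : OnePoint K) :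
    tau d • uu r • x = uu (d * r) • tau d • x := by
  induction x using OnePoint.rec with
  | infty => simp
  | coe a => simp [mul_add]

/-- projection to a character -/
def PP (ψ : AddChar K ℂ) (f : OnePoint K → OnePoint K → ℂ) : OnePoint K → OnePoint K → ℂ :=
  ∑ s, ψ s • act (uu s) f

lemma PP_mem {v f : OnePoint K → OnePoint K → ℂ} (hf : f ∈ E v) (ψ : AddChar K ℂ) :
    PP ψ f ∈ E v :=
  Submodule.sum_mem _ fun s _ => Submodule.smul_mem _ _ (E_act hf _)

lemma PP_apply (ψ : AddChar K ℂ) (f : OnePoint K → OnePoint K → ℂ) (x y : OnePoint K) :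
    PP ψ f x y = ∑ s, ψ s * f (uu s • x) (uu s • y) := by
  simp [PP, act, Finset.sum_apply]

lemma PP_shift (ψ : AddChar K ℂ) (f : OnePoint K → OnePoint K → ℂ) (r : K) (x y : OnePoint K) :
    PP ψ f (uu r • x) (uu r • y) = ψ (-r) * PP ψ f x y := by
  rw [PP_apply, PP_apply, Finset.mul_sum]
  refine Fintype.sum_equiv (Equiv.addRight r) _ _ (fun s => ?_)
  simp only [uu_uu, Equiv.coe_addRight]
  rw [← mul_assoc, ← AddChar.map_add_eq_mul]
  congr 2
  ring

lemma sum_PP (f : OnePoint K → OnePoint K → ℂ) (x y : OnePoint K) :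
    ∑ ψ : AddChar K ℂ, PP ψ f x y = (Fintype.card K : ℂ) * f x y := by
  simp only [PP_apply]
  rw [Finset.sum_comm]
  simp only [← Finset.sum_mul, AddChar.sum_apply_eq_ite]
  have h0 : ∀ z : OnePoint K, uu (0 : K) • z = z := fun z => by
    induction z using OnePoint.rec with
    | infty => simp
    | coe a => simp
  simp [ite_mul, h0]

lemma exists_char {v f : OnePoint K → OnePoint K → ℂ} (hf : f ∈ E v)
    (h0 : f ∞ ((0 : K) : OnePoint K) ≠ 0) :
    ∃ (ψ : AddChar K ℂ) (s : K), ψ s ≠ 1 ∧ PP ψ f ≠ 0 := by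
  by_contra hcon
  push Not at hcon
  have inv : ∀ (ψ : AddChar K ℂ) (r : K) (x y : OnePoint K),
      PP ψ f (uu r • x) (uu r • y) = PP ψ f x y := by
    intro ψ r x y
    by_cases h : ∃ s, ψ s ≠ 1
    · obtain ⟨s, hs⟩ := h
      rw [hcon ψ s hs]; rfl
    · push Not at h
      rw [PP_shift, h, one_mul]
  have hc : (Fintype.card K : ℂ) ≠ 0 := by
    exact_mod_cast Fintype.card_ne_zero
  have finv : ∀ (r : K) (x y : OnePoint K), f (uu r • x) (uu r • y) = f x y := by
    intro r x y
    have := sum_PP f (uu r • x) (uu r • y)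
    simp only [inv] at this
    rw [sum_PP] at this
    exact (mul_left_cancel₀ hc this).symm
  obtain ⟨h1, h2, h3⟩ := hf
  have d : ∀ x, f x x = 0 := fun x => by
    have := h1 x x
    have h3 : (2 : ℂ) * f x x = 0 := by linear_combination this
    simpa using h3
  have h4 := h2 ∞
  rw [sum_op, d, zero_add] at h4
  have h5 : ∀ z : K, f ∞ (z : OnePoint K) = f ∞ ((0 : K) : OnePoint K) := by
    intro z
    have := finv z ∞ ((0 : K) : OnePoint K)
    simpa using this
  simp only [h5, Finset.sum_const, Finset.card_univ, nsmul_eq_mul] at h4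
  rcases mul_eq_zero.1 h4 with h | h
  · exact hc h
  · exact h0 h

/-- as an element of Euclidean space -/
def toE (f : OnePoint K → OnePoint K → ℂ) : EuclideanSpace ℂ (OnePoint K × OnePoint K) :=
  WithLp.toLp 2 (fun p => f p.1 p.2)

lemma inner_toE (f g : OnePoint K → OnePoint K → ℂ) :
    inner ℂ (toE f) (toE g) = ∑ x, ∑ y, conj (f x y) * g x y := by
  simp [toE, PiLp.inner_apply, Fintype.sum_prod_type, mul_comm]

lemma inner_act (k : GL (Fin 2) K) (f g : OnePoint K → OnePoint K → ℂ) :
    inner ℂ (toE (act k f)) (toE (act k g)) = inner ℂ (toE f) (toE g) := by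
  rw [inner_toE, inner_toE]
  refine Fintype.sum_equiv (MulAction.toPerm k) _ _ (fun x => ?_)
  refine Fintype.sum_equiv (MulAction.toPerm k) _ _ (fun y => ?_)
  rfl

lemma orth_fam {h : OnePoint K → OnePoint K → ℂ} {ψ : AddChar K ℂ} {s : K} (hs : ψ s ≠ 1)
    (hh : ∀ (r : K) (x y : OnePoint K), h (uu r • x) (uu r • y) = ψ (-r) * h x y)
    {d e : Kˣ} (hde : d ≠ e) :
    inner ℂ (toE (act (tau d) h)) (toE (act (tau e) h)) = 0 := by
  have key : ∀ r : K, inner ℂ (toE (act (tau d) h)) (toE (act (tau e) h)) =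
      ψ ((d - e) * r) * inner ℂ (toE (act (tau d) h)) (toE (act (tau e) h)) := by
    intro r
    conv_lhs => rw [← inner_act (uu r)]
    rw [inner_toE, inner_toE, Finset.mul_sum]
    refine Finset.sum_congr rfl fun x _ => ?_
    rw [Finset.mul_sum]
    refine Finset.sum_congr rfl fun y _ => ?_
    simp only [act, tau_uu, hh, map_mul]
    rw [← AddChar.map_neg_eq_conj, neg_neg]
    have : ((d : K) - e) * r = d * r + -(e * r) := by ring
    rw [this, AddChar.map_add_eq_mul]
    ring
  have hne : ((d : K) - e) ≠ 0 := sub_ne_zero.2 (fun h => hde (Units.ext h))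
  have h1 := key (s / (d - e))
  rw [mul_div_cancel₀ _ hne] at h1
  have h2 : (1 - ψ s) * inner ℂ (toE (act (tau d) h)) (toE (act (tau e) h)) = 0 := by
    linear_combination h1
  rcases mul_eq_zero.1 h2 with h3 | h3
  · exact absurd (sub_eq_zero.1 h3).symm hs
  · exact h3

/-- the orthonormal family -/
lemma exists_fam {v f : OnePoint K → OnePoint K → ℂ} (hf : f ∈ E v)
    (h0 : f ∞ ((0 : K) : OnePoint K) ≠ 0) :
    ∃ e : Kˣ → OnePoint K → OnePoint K → ℂ, (∀ d, e d ∈ E v) ∧
      ∀ g : GL (Fin 2) K, Orthonormal ℂ (fun d => toE (act g (e d))) := by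
  obtain ⟨ψ, s, hs, hP⟩ := exists_char hf h0
  set h := PP ψ f with hh
  have hn : toE h ≠ 0 := by
    intro h1
    apply hP
    funext x y
    have : (toE h) (x, y) = 0 := by rw [h1]; rfl
    simpa [toE] using this
  have hn' : ‖toE h‖ ≠ 0 := norm_ne_zero_iff.2 hn
  refine ⟨fun d => ((‖toE h‖⁻¹ : ℝ) : ℂ) • act (tau d) h, fun d =>
    Submodule.smul_mem _ _ (E_act (PP_mem hf ψ) _), fun g => ?_⟩
  have sm : ∀ (c : ℂ) (u : OnePoint K → OnePoint K → ℂ), toE (act g (c • u)) = c • toE (act g u) := by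
    intro c u; rfl
  constructor
  · intro d
    simp only [sm, norm_smul]
    have h2 : ‖toE (act g (act (tau d) h))‖ = ‖toE h‖ := by
      rw [@norm_eq_sqrt_re_inner ℂ, @norm_eq_sqrt_re_inner ℂ, inner_act, inner_act]
    rw [h2]
    simp [hn']
  · intro d e hde
    simp only [sm, inner_smul_left, inner_smul_right]
    rw [inner_act, orth_fam hs (PP_shift ψ f) hde]
    simp

end

end Q170.AS
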