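import Pool.Agent.Q170.AS.Fin2

set_option autoImplicit false
set_option linter.unusedSectionVars false
set_option linter.unusedSimpArgs false
open scoped BigOperators ComplexConjugate
open OnePoint

namespace Q170.AS

noncomputable section

variable {K : Type} [Field K] [Fintype K] [DecidableEq K]

lemma quad_card (a b c : K) (h : a ≠ 0 ∨ c ≠ 0) :
    (Finset.univ.filter (fun t : Kˣ => a * (t : K) ^ 2 + b * t + c = 0)).card ≤ 2 := by
  classical
  set P : Polynomial K := Polynomial.C a * Polynomial.X ^ 2 + Polynomial.C b * Polynomial.X +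
    Polynomial.C c with hP
  have hP0 : P ≠ 0 := by
    intro h0
    rcases h with h | h
    · apply h
      have := congrArg (fun Q => Polynomial.coeff Q 2) h0
      simpa [hP, Polynomial.coeff_X, Polynomial.coeff_C] using this
    · apply h
      have := congrArg (fun Q => Polynomial.coeff Q 0) h0
      simpa [hP, Polynomial.coeff_X, Polynomial.coeff_C] using this
  have hdeg : P.natDegree ≤ 2 := Polynomial.natDegree_quadratic_le
  calc (Finset.univ.filter (fun t : Kˣ => a * (t : K) ^ 2 + b * t + c = 0)).card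
      ≤ P.roots.toFinset.card := by
        refine Finset.card_le_card_of_injOn (fun t : Kˣ => (t : K)) ?_ ?_
        · intro t ht
          simp only [Finset.coe_filter, Finset.mem_univ, true_and, Set.mem_ofPred_eq] at ht
          simp only [Finset.mem_coe, Multiset.mem_toFinset, Polynomial.mem_roots hP0,
            Polynomial.IsRoot.def]
          simp [hP, ht]
        · intro s _ t _ hst
          exact Units.ext hst
    _ ≤ P.roots.card := Multiset.toFinset_card_le _
    _ ≤ P.natDegree := Polynomial.card_roots' P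
    _ ≤ 2 := hdeg

/-- second step points -/
def pt (z w z' w' : Kˣ) (q : Kˣ × Kˣ) : OnePoint K × OnePoint K :=
  (gab (q.1 * z : K) (q.1 * w) • ((q.2 * z' : K) : OnePoint K),
    gab (q.1 * z : K) (q.1 * w) • ((q.2 * w' : K) : OnePoint K))

def special (p : OnePoint K × OnePoint K) : Prop :=
  p = (∞, ((0 : K) : OnePoint K)) ∨ p = (((0 : K) : OnePoint K), ∞)

instance (p : OnePoint K × OnePoint K) : Decidable (special p) := by
  unfold special; infer_instance

lemma pt_inj {z w z' w' : Kˣ} {p : OnePoint K × OnePoint K} {q q' : Kˣ × Kˣ}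
    (h : pt z w z' w' q = p) (h' : pt z w z' w' q' = p) (he : q.1 = q'.1) : q = q' := by
  have h1 := congrArg Prod.fst (h.trans h'.symm)
  simp only [pt, he] at h1
  have h2 := MulAction.injective _ h1
  have h3 : (q.2 * z' : K) = q'.2 * z' := by
    simpa [OnePoint.coe_eq_coe] using h2
  have h4 : (q.2 : K) = q'.2 := mul_right_cancel₀ z'.ne_zero h3
  exact Prod.ext he (Units.ext h4)

lemma fiber_le_D (z w z' w' : Kˣ) (p : OnePoint K × OnePoint K) :
    (Finset.univ.filter (fun q : Kˣ × Kˣ => pt z w z' w' q = p)).card ≤ Fintype.card Kˣ := by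
  refine Finset.card_le_card_of_injOn (fun q => q.1) (fun q _ => Finset.mem_univ _) ?_
  intro q hq q' hq' he
  simp only [Finset.coe_filter, Finset.mem_univ, true_and, Set.mem_ofPred_eq] at hq hq'
  exact pt_inj hq hq' he

lemma r_zero {x : OnePoint K} (h : r1 x = 0) : x = ((0 : K) : OnePoint K) := by
  induction x using OnePoint.rec with
  | infty => simp [r1] at h
  | coe a => simp [r1] at h; rw [h]

lemma r_inf {x : OnePoint K} (h : r2 x = 0) : x = ∞ := by
  induction x using OnePoint.rec with
  | infty => rfl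
  | coe a => simp [r2] at h

lemma fiber_le_2 {z w z' w' : Kˣ} (hzw : z ≠ w) (hzw' : z' ≠ w') {p : OnePoint K × OnePoint K}
    (hp : ¬ special p) :
    (Finset.univ.filter (fun q : Kˣ × Kˣ => pt z w z' w' q = p)).card ≤ 2 := by
  obtain ⟨x, y⟩ := p
  set F := Finset.univ.filter (fun q : Kˣ × Kˣ => pt z w z' w' q = (x, y)) with hF
  have hne' : (z' : K) - w' ≠ 0 := sub_ne_zero.2 (fun h => hzw' (Units.ext h))
  by_cases hxy : x = y
  · -- impossible: empty fiber
    have : F = ∅ := by
      rw [Finset.eq_empty_iff_forall_notMem]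
      intro q hq
      simp only [hF, Finset.mem_filter, Finset.mem_univ, true_and, pt, Prod.mk.injEq] at hq
      have h2 := MulAction.injective _ (hq.1.trans (hxy.trans hq.2.symm))
      have h3 : (q.2 * z' : K) = q.2 * w' := by simpa [OnePoint.coe_eq_coe] using h2
      exact hzw' (Units.ext (mul_left_cancel₀ q.2.ne_zero h3))
    rw [this]; simp
  set a : K := z * w * (r2 x * r2 y) * (z' - w') with ha
  set b : K := w' * (w * r2 x * r1 y + z * r1 x * r2 y) - z' * (w * r1 x * r2 y + z * r2 x * r1 y)
    with hb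
  set c : K := (r1 x * r1 y) * (z' - w') with hc
  have hac : a ≠ 0 ∨ c ≠ 0 := by
    by_contra hcon
    push Not at hcon
    obtain ⟨h1, h2⟩ := hcon
    have h1' : r2 x * r2 y = 0 := by
      rcases mul_eq_zero.1 h1 with h | h
      · rcases mul_eq_zero.1 h with h | h
        · rcases mul_eq_zero.1 h with h | h
          · exact absurd h z.ne_zero
          · exact absurd h w.ne_zero
        · exact h
      · exact absurd h hne'
    have h2' : r1 x * r1 y = 0 := by
      rcases mul_eq_zero.1 h2 with h | h
      · exact h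
      · exact absurd h hne'
    apply hp
    rcases mul_eq_zero.1 h1' with h | h
    · have hx := r_inf h
      rcases mul_eq_zero.1 h2' with h' | h'
      · have := r_zero h'
        rw [hx] at this
        exact absurd this (OnePoint.infty_ne_coe _)
      · left; rw [hx, r_zero h']
    · have hy := r_inf h
      rcases mul_eq_zero.1 h2' with h' | h'
      · right; rw [hy, r_zero h']
      · have := r_zero h'
        rw [hy] at this
        exact absurd this (OnePoint.infty_ne_coe _)
  refine le_trans ?_ (quad_card a b c hac)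
  refine Finset.card_le_card_of_injOn (fun q => q.1) ?_ ?_
  · intro q hq
    simp only [hF, Finset.coe_filter, Finset.mem_univ, true_and, Set.mem_ofPred_eq, pt,
      Prod.mk.injEq] at hq
    simp only [Finset.coe_filter, Finset.mem_univ, true_and, Set.mem_ofPred_eq]
    have hne : (q.1 * z : K) ≠ q.1 * w := fun h =>
      hzw (Units.ext (mul_left_cancel₀ q.1.ne_zero h))
    have e1 := gab_coord hne _ hq.1
    have e2 := gab_coord hne _ hq.2
    have e3 : (q.2 : K) * z' * (r1 x - q.1 * z * r2 x) = q.1 * w * r2 x - r1 x := by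
      linear_combination e1
    have e4 : (q.2 : K) * w' * (r1 y - q.1 * z * r2 y) = q.1 * w * r2 y - r1 y := by
      linear_combination e2
    rw [ha, hb, hc]
    linear_combination (-(w' : K) * (r1 y - q.1 * z * r2 y)) * e3 +
      ((z' : K) * (r1 x - q.1 * z * r2 x)) * e4
  · intro q hq q' hq' he
    simp only [hF, Finset.coe_filter, Finset.mem_univ, true_and, Set.mem_ofPred_eq] at hq hq'
    exact pt_inj hq hq' he

/-- vector of second steps -/
def Nv (z w z' w' : Kˣ) : EuclideanSpace ℂ (OnePoint K × OnePoint K) :=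
  ∑ q : Kˣ × Kˣ, EuclideanSpace.single (pt z w z' w' q) (1 : ℂ)

lemma inner_Nv (f : OnePoint K → OnePoint K → ℂ) (z w z' w' : Kˣ) :
    inner ℂ (toE f) (Nv z w z' w') =
      ∑ q : Kˣ × Kˣ, conj (f (pt z w z' w' q).1 (pt z w z' w' q).2) := by
  rw [Nv, inner_sum]
  refine Finset.sum_congr rfl fun q _ => ?_
  rw [EuclideanSpace.inner_single_right]
  simp [toE]

lemma special_card (z w z' w' : Kˣ) :
    (Finset.univ.filter (fun q : Kˣ × Kˣ => special (pt z w z' w' q))).card ≤
      2 * Fintype.card Kˣ := by
  have : Finset.univ.filter (fun q : Kˣ × Kˣ => special (pt z w z' w' q)) ⊆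
      Finset.univ.filter (fun q : Kˣ × Kˣ => pt z w z' w' q = (∞, ((0 : K) : OnePoint K))) ∪
      Finset.univ.filter (fun q : Kˣ × Kˣ => pt z w z' w' q = (((0 : K) : OnePoint K), ∞)) := by
    intro q hq
    simp only [Finset.mem_filter, Finset.mem_univ, true_and, Finset.mem_union] at hq ⊢
    exact hq
  refine le_trans (Finset.card_le_card this) (le_trans (Finset.card_union_le _ _) ?_)
  have h1 := fiber_le_D z w z' w' (∞, ((0 : K) : OnePoint K))
  have h2 := fiber_le_D z w z' w' (((0 : K) : OnePoint K), ∞)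
  omega

lemma Nv_norm {z w z' w' : Kˣ} (hzw : z ≠ w) (hzw' : z' ≠ w') :
    ‖Nv z w z' w'‖ ≤ 2 * (Fintype.card Kˣ : ℝ) := by
  have h1 : (‖Nv z w z' w'‖ ^ 2 : ℝ) = ∑ q : Kˣ × Kˣ,
      ((Finset.univ.filter (fun q' : Kˣ × Kˣ => pt z w z' w' q' = pt z w z' w' q)).card : ℝ) := by
    have h2 : inner ℂ (Nv z w z' w') (Nv z w z' w') = ∑ q : Kˣ × Kˣ,
      ((Finset.univ.filter (fun q' : Kˣ × Kˣ => pt z w z' w' q' = pt z w z' w' q)).card : ℂ) := by
      conv_lhs => rw [Nv, sum_inner]
      refine Finset.sum_congr rfl fun q _ => ?_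
      rw [inner_sum]
      simp only [EuclideanSpace.inner_single_left, EuclideanSpace.single_apply]
      rw [Finset.card_filter]
      push_cast
      refine Finset.sum_congr rfl fun q' _ => ?_
      by_cases h : pt z w z' w' q' = pt z w z' w' q
      · simp [h]
      · simp [h, Ne.symm h]
    apply Complex.ofReal_injective
    push_cast
    rw [← h2]
    exact (inner_self_eq_norm_sq_to_K (𝕜 := ℂ) (Nv z w z' w')).symm
  have h2 : ∑ q : Kˣ × Kˣ,
      ((Finset.univ.filter (fun q' : Kˣ × Kˣ => pt z w z' w' q' = pt z w z' w' q)).card : ℝ) ≤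
      ∑ q : Kˣ × Kˣ, ((2 : ℝ) + if special (pt z w z' w' q) then (Fintype.card Kˣ : ℝ) else 0) := by
    refine Finset.sum_le_sum fun q _ => ?_
    by_cases h : special (pt z w z' w' q)
    · rw [if_pos h]
      have := fiber_le_D z w z' w' (pt z w z' w' q)
      have h3 : ((Finset.univ.filter (fun q' : Kˣ × Kˣ =>
        pt z w z' w' q' = pt z w z' w' q)).card : ℝ) ≤ Fintype.card Kˣ := by exact_mod_cast this
      linarith
    · rw [if_neg h, add_zero]
      have := fiber_le_2 hzw hzw' h
      exact_mod_cast this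
  have h3 : ∑ q : Kˣ × Kˣ, ((2 : ℝ) + if special (pt z w z' w' q) then (Fintype.card Kˣ : ℝ) else 0)
      ≤ 4 * (Fintype.card Kˣ : ℝ) ^ 2 := by
    rw [Finset.sum_add_distrib, Finset.sum_const, Finset.card_univ, Fintype.card_prod,
      ← Finset.sum_filter, Finset.sum_const, nsmul_eq_mul, nsmul_eq_mul]
    have := special_card z w z' w'
    have h4 : ((Finset.univ.filter (fun q : Kˣ × Kˣ => special (pt z w z' w' q))).card : ℝ) ≤
      2 * Fintype.card Kˣ := by exact_mod_cast this
    push_cast
    have h5 : (0 : ℝ) ≤ Fintype.card Kˣ := Nat.cast_nonneg _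
    nlinarith
  have h4 : ‖Nv z w z' w'‖ ^ 2 ≤ (2 * (Fintype.card Kˣ : ℝ)) ^ 2 := by
    rw [h1]; calc _ ≤ _ := h2
      _ ≤ _ := h3
      _ = _ := by ring
  exact abs_le_of_sq_le_sq' h4 (by positivity) |>.2

end

end Q170.AS
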