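import Pool.Agent.Q170.AS.Fin3

set_option autoImplicit false
set_option linter.unusedSectionVars false
set_option linter.unusedSimpArgs false
open scoped BigOperators ComplexConjugate
open OnePoint

namespace Q170.AS

noncomputable section

variable {K : Type} [Field K] [Fintype K] [DecidableEq K]

/-- the relation at two steps -/
lemma two_step {v f : OnePoint K → OnePoint K → ℂ} (hv1 : ∀ x y, v x y = - v y x)
    (hv2 : ∀ x, ∑ y, v x y = 0) (hv0 : v ∞ ((0 : K) : OnePoint K) = 1) (hf : f ∈ E v) :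
    ∑ z : Kˣ, ∑ w : Kˣ, ∑ z' : Kˣ, ∑ w' : Kˣ,
      (v ((z : K) : OnePoint K) ((w : K) : OnePoint K) *
        v ((z' : K) : OnePoint K) ((w' : K) : OnePoint K)) *
      ∑ q : Kˣ × Kˣ, f (pt z w z' w' q).1 (pt z w z' w' q).2 =
    (2 * (Fintype.card Kˣ : ℂ) + 4) ^ 2 * f ∞ ((0 : K) : OnePoint K) := by
  have hs := star hv1 hv2 hf
  rw [hv0] at hs
  have vd : ∀ x, v x x = 0 := fun x => by
    have := hv1 x x
    have h3 : (2 : ℂ) * v x x = 0 := by linear_combination this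
    simpa using h3
  have step : ∀ z w : Kˣ, ∑ z' : Kˣ, ∑ w' : Kˣ,
      (v ((z : K) : OnePoint K) ((w : K) : OnePoint K) *
        v ((z' : K) : OnePoint K) ((w' : K) : OnePoint K)) *
      ∑ q : Kˣ × Kˣ, f (pt z w z' w' q).1 (pt z w z' w' q).2 =
      -(2 * (Fintype.card Kˣ : ℂ) + 4) * (v ((z : K) : OnePoint K) ((w : K) : OnePoint K) *
      ∑ t : Kˣ, f ((t * z : K) : OnePoint K) ((t * w : K) : OnePoint K)) := by
    intro z w
    by_cases hzw : z = w
    · subst hzw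
      simp [vd]
    · have h1 : ∀ t : Kˣ, ∑ z' : Kˣ, ∑ w' : Kˣ,
          v ((z' : K) : OnePoint K) ((w' : K) : OnePoint K) *
          ∑ t' : Kˣ, f (pt z w z' w' (t, t')).1 (pt z w z' w' (t, t')).2 =
          -(2 * (Fintype.card Kˣ : ℂ) + 4) * f ((t * z : K) : OnePoint K) ((t * w : K) : OnePoint K) := by
        intro t
        have hne : (t * z : K) ≠ t * w := fun h =>
          hzw (Units.ext (mul_left_cancel₀ t.ne_zero h))
        have h2 := star hv1 hv2 (E_act hf (gab (t * z : K) (t * w)))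
        rw [hv0] at h2
        simp only [act, gab_inf hne, gab_zero hne] at h2
        simp only [pt]
        rw [h2]; ring
      calc _ = v ((z : K) : OnePoint K) ((w : K) : OnePoint K) *
          ∑ z' : Kˣ, ∑ w' : Kˣ, ∑ t : Kˣ, v ((z' : K) : OnePoint K) ((w' : K) : OnePoint K) *
          ∑ t' : Kˣ, f (pt z w z' w' (t, t')).1 (pt z w z' w' (t, t')).2 := by
            rw [Finset.mul_sum]
            refine Finset.sum_congr rfl fun z' _ => ?_
            rw [Finset.mul_sum]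
            refine Finset.sum_congr rfl fun w' _ => ?_
            rw [← Finset.mul_sum, Fintype.sum_prod_type]
            ring
        _ = v ((z : K) : OnePoint K) ((w : K) : OnePoint K) *
          ∑ t : Kˣ, ∑ z' : Kˣ, ∑ w' : Kˣ, v ((z' : K) : OnePoint K) ((w' : K) : OnePoint K) *
          ∑ t' : Kˣ, f (pt z w z' w' (t, t')).1 (pt z w z' w' (t, t')).2 := by
            congr 1
            have : ∀ z' : Kˣ, ∑ w' : Kˣ, ∑ t : Kˣ,
              v ((z' : K) : OnePoint K) ((w' : K) : OnePoint K) *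
              ∑ t' : Kˣ, f (pt z w z' w' (t, t')).1 (pt z w z' w' (t, t')).2 =
              ∑ t : Kˣ, ∑ w' : Kˣ, v ((z' : K) : OnePoint K) ((w' : K) : OnePoint K) *
              ∑ t' : Kˣ, f (pt z w z' w' (t, t')).1 (pt z w z' w' (t, t')).2 :=
              fun z' => Finset.sum_comm
            rw [Finset.sum_congr rfl fun z' _ => this z', Finset.sum_comm]
        _ = _ := by
            simp only [h1]
            rw [← Finset.mul_sum]
            ring
  simp only [step]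
  have h3 : ∑ z : Kˣ, ∑ w : Kˣ, -(2 * (Fintype.card Kˣ : ℂ) + 4) *
      (v ((z : K) : OnePoint K) ((w : K) : OnePoint K) *
      ∑ t : Kˣ, f ((t * z : K) : OnePoint K) ((t * w : K) : OnePoint K)) =
      -(2 * (Fintype.card Kˣ : ℂ) + 4) * ∑ z : Kˣ, ∑ w : Kˣ,
      v ((z : K) : OnePoint K) ((w : K) : OnePoint K) *
      ∑ t : Kˣ, f ((t * z : K) : OnePoint K) ((t * w : K) : OnePoint K) := by
    simp only [Finset.mul_sum]
  rw [h3, hs]
  ring

/-- the test vector -/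
def BB (v : OnePoint K → OnePoint K → ℂ) : EuclideanSpace ℂ (OnePoint K × OnePoint K) :=
  ∑ z : Kˣ, ∑ w : Kˣ, ∑ z' : Kˣ, ∑ w' : Kˣ,
      (conj (v ((z : K) : OnePoint K) ((w : K) : OnePoint K) *
        v ((z' : K) : OnePoint K) ((w' : K) : OnePoint K)) : ℂ) • Nv z w z' w'

lemma inner_BB {v f : OnePoint K → OnePoint K → ℂ} (hv1 : ∀ x y, v x y = - v y x)
    (hv2 : ∀ x, ∑ y, v x y = 0) (hv0 : v ∞ ((0 : K) : OnePoint K) = 1) (hf : f ∈ E v) :
    inner ℂ (toE f) (BB v) =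
      conj ((2 * (Fintype.card Kˣ : ℂ) + 4) ^ 2 * f ∞ ((0 : K) : OnePoint K)) := by
  rw [← two_step hv1 hv2 hv0 hf, BB]
  simp only [inner_sum, inner_smul_right, inner_Nv, map_sum, map_mul]

lemma norm_BB {v : OnePoint K → OnePoint K → ℂ} (hv1 : ∀ x y, v x y = - v y x) {S : ℝ}
    (hS : ∑ z : Kˣ, ∑ w : Kˣ, ‖v ((z : K) : OnePoint K) ((w : K) : OnePoint K)‖ ≤ S) :
    ‖BB v‖ ≤ 2 * (Fintype.card Kˣ : ℝ) * S ^ 2 := by
  have vd : ∀ x, v x x = 0 := fun x => by
    have := hv1 x x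
    have h3 : (2 : ℂ) * v x x = 0 := by linear_combination this
    simpa using h3
  have h1 : ‖BB v‖ ≤ ∑ z : Kˣ, ∑ w : Kˣ, ∑ z' : Kˣ, ∑ w' : Kˣ,
      (‖v ((z : K) : OnePoint K) ((w : K) : OnePoint K)‖ *
        ‖v ((z' : K) : OnePoint K) ((w' : K) : OnePoint K)‖) * (2 * (Fintype.card Kˣ : ℝ)) := by
    rw [BB]
    refine norm_sum_le_of_le _ fun z _ => norm_sum_le_of_le _ fun w _ =>
      norm_sum_le_of_le _ fun z' _ => norm_sum_le_of_le _ fun w' _ => ?_
    by_cases h : z = w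
    · subst h; simp [vd]
    by_cases h' : z' = w'
    · subst h'; simp [vd]
    rw [norm_smul, RCLike.norm_conj, norm_mul]
    exact mul_le_mul_of_nonneg_left (Nv_norm h h') (by positivity)
  set T := ∑ z : Kˣ, ∑ w : Kˣ, ‖v ((z : K) : OnePoint K) ((w : K) : OnePoint K)‖ with hT
  have h2 : ∑ z : Kˣ, ∑ w : Kˣ, ∑ z' : Kˣ, ∑ w' : Kˣ,
      (‖v ((z : K) : OnePoint K) ((w : K) : OnePoint K)‖ *
        ‖v ((z' : K) : OnePoint K) ((w' : K) : OnePoint K)‖) * (2 * (Fintype.card Kˣ : ℝ)) =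
      T * T * (2 * (Fintype.card Kˣ : ℝ)) := by
    simp only [mul_assoc, ← Finset.mul_sum, ← Finset.sum_mul]
    rw [← hT]
  have hT0 : 0 ≤ T := Finset.sum_nonneg fun z _ => Finset.sum_nonneg fun w _ => norm_nonneg _
  have hc : (0 : ℝ) ≤ Fintype.card Kˣ := Nat.cast_nonneg _
  calc ‖BB v‖ ≤ T * T * (2 * (Fintype.card Kˣ : ℝ)) := by rw [← h2]; exact h1
    _ ≤ S * S * (2 * (Fintype.card Kˣ : ℝ)) := by
      apply mul_le_mul_of_nonneg_right _ (by positivity)
      exact mul_le_mul hS hS hT0 (le_trans hT0 hS)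
    _ = _ := by ring

/-- **Finite level theorem.** -/
theorem fin_main {v : OnePoint K → OnePoint K → ℂ} (hv1 : ∀ x y, v x y = - v y x)
    (hv2 : ∀ x, ∑ y, v x y = 0) (hv0 : v ∞ ((0 : K) : OnePoint K) = 1) {S : ℝ}
    (hS : ∑ z : Kˣ, ∑ w : Kˣ, ‖v ((z : K) : OnePoint K) ((w : K) : OnePoint K)‖ ≤ S)
    (hD : 3 * S ^ 4 < (Fintype.card Kˣ : ℝ)) {f : OnePoint K → OnePoint K → ℂ} (hf : f ∈ E v) :
    f = 0 := by
  by_contra hne
  obtain ⟨x0, hx0⟩ := Function.ne_iff.1 hne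
  obtain ⟨y0, hy0⟩ := Function.ne_iff.1 hx0
  have fd : ∀ g ∈ E v, ∀ x, g x x = 0 := fun g hg x => by
    have := hg.1 x x
    have h3 : (2 : ℂ) * g x x = 0 := by linear_combination this
    simpa using h3
  have hxy0 : x0 ≠ y0 := by
    rintro rfl
    exact hy0 (fd f hf x0)
  obtain ⟨g0, hg1, hg2⟩ := exists_pair x0 y0 hxy0
  have hf1 : act g0 f ∈ E v := E_act hf g0
  have hf10 : act g0 f ∞ ((0 : K) : OnePoint K) ≠ 0 := by
    simp only [act, hg1, hg2]; exact hy0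
  obtain ⟨e, heE, horth⟩ := exists_fam hf1 hf10
  set D : ℝ := (Fintype.card Kˣ : ℝ) with hDdef
  have hD1 : 1 ≤ D := by
    have : 0 < Fintype.card Kˣ := Fintype.card_pos
    rw [hDdef]; exact_mod_cast this
  -- pointwise bound
  have hpt : ∀ x y : OnePoint K, (2 * D + 4) ^ 4 * ∑ d : Kˣ, ‖e d x y‖ ^ 2 ≤ (2 * D * S ^ 2) ^ 2 := by
    intro x y
    by_cases hxy : x = y
    · subst hxy
      have : ∑ d : Kˣ, ‖e d x x‖ ^ 2 = 0 :=
        Finset.sum_eq_zero fun d _ => by rw [fd _ (heE d)]; simp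
      rw [this, mul_zero]; positivity
    obtain ⟨g, h1, h2⟩ := exists_pair x y hxy
    have hb := (horth g).sum_inner_products_le (x := BB v) (s := Finset.univ)
    have h3 : ∀ d : Kˣ, ‖inner ℂ (toE (act g (e d))) (BB v)‖ ^ 2 =
        (2 * D + 4) ^ 4 * ‖e d x y‖ ^ 2 := by
      intro d
      rw [inner_BB hv1 hv2 hv0 (E_act (heE d) g), RCLike.norm_conj, norm_mul, norm_pow]
      simp only [act, h1, h2]
      have : ‖(2 * (Fintype.card Kˣ : ℂ) + 4)‖ = 2 * D + 4 := by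
        have h4 : (2 * (Fintype.card Kˣ : ℂ) + 4) = ((2 * D + 4 : ℝ) : ℂ) := by
          rw [hDdef]; push_cast; ring
        rw [h4, Complex.norm_real, Real.norm_of_nonneg (by positivity)]
      rw [this]; ring
    simp only [h3] at hb
    rw [← Finset.mul_sum] at hb
    refine le_trans hb ?_
    have h5 := norm_BB hv1 hS
    exact pow_le_pow_left₀ (norm_nonneg _) h5 2
  -- total
  have htot : ∑ x : OnePoint K, ∑ y : OnePoint K, ∑ d : Kˣ, ‖e d x y‖ ^ 2 = D := by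
    have h1 : ∀ d : Kˣ, ∑ x : OnePoint K, ∑ y : OnePoint K, ‖e d x y‖ ^ 2 = 1 := by
      intro d
      have h2 := (horth 1).1 d
      have h3 : ‖toE (act 1 (e d))‖ ^ 2 = ∑ x : OnePoint K, ∑ y : OnePoint K, ‖e d x y‖ ^ 2 := by
        rw [EuclideanSpace.norm_sq_eq, Fintype.sum_prod_type]
        simp [toE, act]
      rw [← h3, h2, one_pow]
    calc _ = ∑ x : OnePoint K, ∑ d : Kˣ, ∑ y : OnePoint K, ‖e d x y‖ ^ 2 :=
          Finset.sum_congr rfl fun x _ => Finset.sum_comm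
      _ = ∑ d : Kˣ, ∑ x : OnePoint K, ∑ y : OnePoint K, ‖e d x y‖ ^ 2 := Finset.sum_comm
      _ = D := by simp only [h1]; simp [hDdef]
  have hcardX : (Fintype.card (OnePoint K) : ℝ) = D + 2 := by
    have h1 : Fintype.card (OnePoint K) = Fintype.card K + 1 := Fintype.card_option
    have h2 : Fintype.card K = Fintype.card Kˣ + 1 := by
      have := Fintype.card_units (α := K)
      have h3 : 0 < Fintype.card K := Fintype.card_pos
      omega
    rw [h1, h2, hDdef]; push_cast; ring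
  have hsum : (2 * D + 4) ^ 4 * D ≤ (D + 2) ^ 2 * (2 * D * S ^ 2) ^ 2 := by
    calc (2 * D + 4) ^ 4 * D = (2 * D + 4) ^ 4 *
          ∑ x : OnePoint K, ∑ y : OnePoint K, ∑ d : Kˣ, ‖e d x y‖ ^ 2 := by rw [htot]
      _ = ∑ x : OnePoint K, (2 * D + 4) ^ 4 * ∑ y : OnePoint K, ∑ d : Kˣ, ‖e d x y‖ ^ 2 := by
          rw [Finset.mul_sum]
      _ ≤ ∑ x : OnePoint K, ∑ y : OnePoint K, (2 * D * S ^ 2) ^ 2 := by
          refine Finset.sum_le_sum fun x _ => ?_
          rw [Finset.mul_sum]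
          exact Finset.sum_le_sum fun y _ => hpt x y
      _ = (D + 2) ^ 2 * (2 * D * S ^ 2) ^ 2 := by
          simp only [Finset.sum_const, Finset.card_univ, nsmul_eq_mul]
          rw [hcardX]; ring
  have h16 : 4 * (D + 2) ^ 2 ≤ D * S ^ 4 := by
    have h1 : (D + 2) ^ 2 * D * (4 * (4 * (D + 2) ^ 2)) ≤ (D + 2) ^ 2 * D * (4 * (D * S ^ 4)) := by
      calc _ = (2 * D + 4) ^ 4 * D := by ring
        _ ≤ _ := hsum
        _ = _ := by ring
    have h2 : 0 < (D + 2) ^ 2 * D := by positivity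
    have := le_of_mul_le_mul_left h1 h2
    linarith
  have hS4 : 0 ≤ S ^ 4 := by positivity
  nlinarith

end

end Q170.AS
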