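import Pool.Agent.Q170.AS.Fin4

set_option autoImplicit false
set_option linter.unusedSectionVars false
set_option linter.unusedSimpArgs false
open scoped BigOperators ComplexConjugate
open OnePoint

namespace Q170.AS

theorem emb (k0 : Type) [Field k0] [CharZero k0] [Countable k0] : Nonempty (k0 →+* ℂ) := by
  let A := MvPolynomial ℝ k0
  let L := AlgebraicClosure (FractionRing A)
  have hA : Cardinal.mk A = Cardinal.continuum := by
    have h1 : Cardinal.mk A = max (max (Cardinal.mk k0) (Cardinal.mk ℝ)) Cardinal.aleph0 :=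
      MvPolynomial.cardinalMk_eq_max
    have h2 : Cardinal.mk k0 ≤ Cardinal.continuum :=
      le_trans (Cardinal.mk_le_aleph0) Cardinal.aleph0_le_continuum
    rw [h1, Cardinal.mk_real, max_eq_right h2, max_eq_left Cardinal.aleph0_le_continuum]
  have hF : Cardinal.mk (FractionRing A) = Cardinal.continuum := by
    rw [FractionRing.cardinalMk, hA]
  have hL : Cardinal.mk L = Cardinal.continuum := by
    apply le_antisymm
    · refine le_trans (Algebra.IsAlgebraic.cardinalMk_le_max (FractionRing A) L) ?_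
      rw [hF, max_eq_left Cardinal.aleph0_le_continuum]
    · rw [← hF]
      exact Cardinal.mk_le_of_injective (algebraMap (FractionRing A) L).injective
  let φ : k0 →+* L := (algebraMap (FractionRing A) L).comp
    ((algebraMap A (FractionRing A)).comp MvPolynomial.C)
  have : CharZero L := charZero_of_injective_ringHom φ.injective
  obtain ⟨e⟩ := IsAlgClosed.ringEquiv_of_equiv_of_charZero (K := L) (L := ℂ)
    (by rw [hL]; exact Cardinal.aleph0_lt_continuum)
    (Cardinal.eq.1 (by rw [hL, Cardinal.mk_complex]))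
  exact ⟨(e : L →+* ℂ).comp φ⟩

universe u

theorem emb' (k0 : Type u) [Field k0] [CharZero k0] [Countable k0] : Nonempty (k0 →+* ℂ) := by
  have : Small.{0} k0 := Countable.toSmall k0
  let e : Shrink.{0} k0 ≃+* k0 := Shrink.ringEquiv.{0, u} k0
  have : CharZero (Shrink.{0} k0) := charZero_of_injective_ringHom (f := (e.symm : k0 →+* _))
    e.symm.injective
  have : Countable (Shrink.{0} k0) := (equivShrink.{0, u} k0).symm.injective.countable
  obtain ⟨φ⟩ := emb (Shrink.{0} k0)
  exact ⟨φ.comp (e.symm : k0 →+* _)⟩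

noncomputable section

variable {K : Type} [Field K] [Fintype K] [DecidableEq K]

/-- cocycle condition for functions orthogonal to all translates. -/
theorem cocycle_zero {v : OnePoint K → OnePoint K → ℂ} (hv1 : ∀ x y, v x y = - v y x)
    (hv2 : ∀ x, ∑ y, v x y = 0) (hv0 : v ∞ ((0 : K) : OnePoint K) = 1) {S : ℝ}
    (hS : ∑ z : Kˣ, ∑ w : Kˣ, ‖v ((z : K) : OnePoint K) ((w : K) : OnePoint K)‖ ≤ S)
    (hD : 3 * S ^ 4 < (Fintype.card Kˣ : ℝ)) {f : OnePoint K → OnePoint K → ℂ}
    (hf : ∀ g : GL (Fin 2) K, ∑ x, ∑ y, v x y * f (g • x) (g • y) = 0) (x y z : OnePoint K) :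
    (f x y - f y x) + (f y z - f z y) + (f z x - f x z) = 0 := by
  have hc : (Fintype.card (OnePoint K) : ℂ) ≠ 0 := by
    have : Fintype.card (OnePoint K) ≠ 0 := Fintype.card_ne_zero
    exact_mod_cast this
  set c : ℂ := (Fintype.card (OnePoint K) : ℂ) with hcdef
  let h1 : OnePoint K → ℂ := fun x => (∑ y, (f x y - f y x)) / c
  let f2 : OnePoint K → OnePoint K → ℂ := fun x y => f x y - f y x - h1 x + h1 y
  have hv3 : ∀ y, ∑ x, v x y = 0 := fun y => by
    have := hv2 y
    rw [← neg_eq_zero, ← Finset.sum_neg_distrib]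
    rw [← this]
    exact Finset.sum_congr rfl fun x _ => (hv1 y x).symm
  have hsum1 : ∑ x, h1 x = 0 := by
    simp only [h1]
    rw [← Finset.sum_div]
    have : ∑ x, ∑ y, (f x y - f y x) = 0 := by
      simp only [Finset.sum_sub_distrib]
      rw [Finset.sum_comm, sub_self]
    rw [this, zero_div]
  have hmem : f2 ∈ E v := by
    refine ⟨fun a b => ?_, fun a => ?_, fun g => ?_⟩
    · simp only [f2]; ring
    · simp only [f2]
      rw [Finset.sum_add_distrib, hsum1, add_zero, Finset.sum_sub_distrib, Finset.sum_const,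
        Finset.card_univ, nsmul_eq_mul]
      simp only [h1]
      rw [← hcdef, mul_div_cancel₀ _ hc, sub_self]
    · have e1 : ∑ a, ∑ b, v a b * f (g • b) (g • a) = 0 := by
        have := hf g
        rw [Finset.sum_comm] at this
        rw [← neg_eq_zero, ← this, ← Finset.sum_neg_distrib]
        refine Finset.sum_congr rfl fun a _ => ?_
        rw [← Finset.sum_neg_distrib]
        refine Finset.sum_congr rfl fun b _ => ?_
        rw [hv1 a b]; ring
      have e2 : ∑ a, ∑ b, v a b * h1 (g • a) = 0 := by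
        simp only [← Finset.sum_mul, hv2, zero_mul, Finset.sum_const_zero]
      have e3 : ∑ a, ∑ b, v a b * h1 (g • b) = 0 := by
        rw [Finset.sum_comm]
        simp only [← Finset.sum_mul, hv3, zero_mul, Finset.sum_const_zero]
      have e0 := hf g
      simp only [f2, mul_add, mul_sub, Finset.sum_add_distrib, Finset.sum_sub_distrib]
      rw [e0, e1, e2, e3]; ring
  have hz := fin_main hv1 hv2 hv0 hS hD hmem
  have h2 : ∀ a b, f a b - f b a = h1 a - h1 b := by
    intro a b
    have : f2 a b = 0 := by rw [hz]; rfl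
    simp only [f2] at this
    linear_combination this
  rw [h2, h2, h2]; ring

variable {k0 : Type u} [Field k0]

/-- the cycle -/
def RR (k0 : Type u) [Field k0] (a b : OnePoint K) : OnePoint K × OnePoint K → k0 :=
  Pi.single (a, b) 1 - Pi.single (b, a) 1 + (Pi.single (b, ∞) 1 - Pi.single (∞, b) 1) +
    (Pi.single (∞, a) 1 - Pi.single (a, ∞) 1)

theorem span_level (σ : k0 →+* ℂ) {v : OnePoint K → OnePoint K → k0}
    (hv1 : ∀ x y, v x y = - v y x)
    (hv2 : ∀ x, ∑ y, v x y = 0) (hv0 : v ∞ ((0 : K) : OnePoint K) = 1) {S : ℝ}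
    (hS : ∑ z : Kˣ, ∑ w : Kˣ, ‖σ (v ((z : K) : OnePoint K) ((w : K) : OnePoint K))‖ ≤ S)
    (hD : 3 * S ^ 4 < (Fintype.card Kˣ : ℝ)) (a b : OnePoint K) :
    RR k0 a b ∈ Submodule.span k0 (Set.range (fun g : GL (Fin 2) K =>
      fun p : OnePoint K × OnePoint K => v (g • p.1) (g • p.2))) := by
  set W := Submodule.span k0 (Set.range (fun g : GL (Fin 2) K =>
      fun p : OnePoint K × OnePoint K => v (g • p.1) (g • p.2))) with hW
  by_contra hcon
  obtain ⟨ℓ, hℓ, hℓW⟩ := Submodule.exists_dual_map_eq_bot_of_notMem hcon inferInstance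
  apply hℓ
  let f : OnePoint K → OnePoint K → k0 := fun x y => ℓ (Pi.single (x, y) 1)
  have hexp : ∀ φ : OnePoint K × OnePoint K → k0, ℓ φ = ∑ x, ∑ y, φ (x, y) * f x y := by
    intro φ
    have h1 : φ = ∑ p : OnePoint K × OnePoint K, φ p • (Pi.single p (1 : k0)) := by
      funext q
      simp [Finset.sum_apply, Pi.single_apply]
    conv_lhs => rw [h1]
    rw [map_sum, Fintype.sum_prod_type]
    simp [f]
  have hzero : ∀ g : GL (Fin 2) K, ∑ x, ∑ y, v x y * f (g • x) (g • y) = 0 := by
    intro g
    have h1 : ℓ (fun p : OnePoint K × OnePoint K => v (g⁻¹ • p.1) (g⁻¹ • p.2)) = 0 := by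
      have h2 : ℓ (fun p : OnePoint K × OnePoint K => v (g⁻¹ • p.1) (g⁻¹ • p.2)) ∈ W.map ℓ :=
        Submodule.mem_map_of_mem (Submodule.subset_span ⟨g⁻¹, rfl⟩)
      rw [hℓW] at h2
      exact (Submodule.mem_bot k0).1 h2
    rw [hexp] at h1
    rw [← h1]
    refine Fintype.sum_equiv (MulAction.toPerm g) _ _ (fun x => ?_)
    refine Fintype.sum_equiv (MulAction.toPerm g) _ _ (fun y => ?_)
    simp
  have hσ : ∀ x y z : OnePoint K, (f x y - f y x) + (f y z - f z y) + (f z x - f x z) = 0 := by
    intro x y z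
    apply σ.injective
    rw [map_zero]
    have h3 := cocycle_zero (v := fun x y => σ (v x y)) (f := fun x y => σ (f x y))
      (fun x y => by rw [hv1 x y, map_neg]) (fun x => by rw [← map_sum, hv2, map_zero])
      (by rw [hv0, map_one]) hS hD (fun g => by
        have := congrArg σ (hzero g)
        rw [map_zero] at this
        rw [← this, map_sum]
        refine Finset.sum_congr rfl fun x _ => ?_
        rw [map_sum]
        refine Finset.sum_congr rfl fun y _ => ?_
        rw [map_mul]) x y z
    simpa using h3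
  have h4 := hσ a b ∞
  simp only [RR, map_add, map_sub]
  exact h4

end

end Q170.AS
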